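import Mathlib

/-!
# Closure systems with at most one rooted set per root are average-rare

Let `𝒜` be a family of rooted sets `(A, r)`, `r ∉ A`, on a finite set `V` in which every element of
`V` is the root of at most one member, and let `C` be the family of all `F ⊆ V` with
`A ⊆ F → r ∈ F` for all `(A, r) ∈ 𝒜`.  If `∅ ∈ C`, then the members of `C` have on the average at most
`|V| / 2` elements.  In particular (`V ≠ ∅`) some element lies in at most half of the members.

Proof.  Twice the sum of the sizes minus `|C| |V|` is the number of the pairs `(v, F)` with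
`v ∈ F ∈ C`, `F \ v ∉ C` minus the number of the pairs `(u, F')` with `u ∉ F' ∈ C`, `F' ∪ u ∉ C`.
To a pair `(v, F)` of the first kind choose a maximal closed subset `F'` of `F \ v`, and to a pair
`(u, F')` of the second kind let `F` be the closure of `F' ∪ u`.  For given `F' ⊂ F` there are at least
as many `u` as `v`.
-/

namespace Pool.Agent.Results.MP_acd7a5_co.AverageRare

open Finset

variable {V : Type*} [Fintype V] [DecidableEq V]

/-- `F` is closed under the rooted sets of `𝒜`. -/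
def Closed (𝒜 : Finset (Finset V × V)) (F : Finset V) : Prop :=
  ∀ p ∈ 𝒜, p.1 ⊆ F → p.2 ∈ F

instance (𝒜 : Finset (Finset V × V)) : DecidablePred (Closed 𝒜) := fun F => by
  unfold Closed
  infer_instance

/-- The closure. -/
def cl (𝒜 : Finset (Finset V × V)) (X : Finset V) : Finset V :=
  univ.filter fun x => ∀ G : Finset V, Closed 𝒜 G → X ⊆ G → x ∈ G

variable {𝒜 : Finset (Finset V × V)}

lemma subset_cl (X : Finset V) : X ⊆ cl 𝒜 X := by
  intro x hx
  simp only [cl, mem_filter, mem_univ, true_and]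
  intro G _ h
  exact h hx

lemma cl_subset {X G : Finset V} (hG : Closed 𝒜 G) (h : X ⊆ G) : cl 𝒜 X ⊆ G := by
  intro x hx
  simp only [cl, mem_filter, mem_univ, true_and] at hx
  exact hx G hG h

lemma closed_cl (X : Finset V) : Closed 𝒜 (cl 𝒜 X) := by
  intro p hp h
  simp only [cl, mem_filter, mem_univ, true_and]
  intro G hG hX
  exact hG p hp (h.trans (cl_subset hG hX))

/-- The generated elements of a closure have their stems in the closure. -/
lemma stem_subset (h2 : ∀ p ∈ 𝒜, ∀ q ∈ 𝒜, p.2 = q.2 → p = q)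
    {X : Finset V} {p : Finset V × V} (hp : p ∈ 𝒜) (hx : p.2 ∈ cl 𝒜 X) (hX : p.2 ∉ X) :
    p.1 ⊆ cl 𝒜 X := by
  by_contra hcon
  have hcl : Closed 𝒜 ((cl 𝒜 X).erase p.2) := by
    intro q hq hsub
    have h3 : q.2 ∈ cl 𝒜 X := closed_cl X q hq (hsub.trans (erase_subset _ _))
    refine mem_erase.2 ⟨?_, h3⟩
    intro h4
    have h5 := h2 q hq p hp h4
    rw [h5] at hsub
    exact hcon (hsub.trans (erase_subset _ _))
  have h6 : X ⊆ (cl 𝒜 X).erase p.2 := by
    intro x hx'
    refine mem_erase.2 ⟨?_, subset_cl X hx'⟩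
    rintro rfl
    exact hX hx'
  exact absurd (cl_subset hcl h6 hx) (notMem_erase _ _)

/-- `F'` is a maximal closed subset of `F \ v`. -/
def IsMax (𝒜 : Finset (Finset V × V)) (v : V) (F F' : Finset V) : Prop :=
  Closed 𝒜 F' ∧ F' ⊆ F.erase v ∧ ∀ G : Finset V, Closed 𝒜 G → G ⊆ F.erase v → F' ⊆ G → G = F'

lemma exists_max (h0 : Closed 𝒜 (∅ : Finset V)) (v : V) (F : Finset V) :
    ∃ F', IsMax 𝒜 v F F' := by
  classical
  set S : Finset (Finset V) := univ.filter fun G => Closed 𝒜 G ∧ G ⊆ F.erase v with hS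
  have hne : S.Nonempty := ⟨∅, by simp [hS, h0]⟩
  obtain ⟨F', hF', hmax⟩ := S.exists_max_image card hne
  simp only [hS, mem_filter, mem_univ, true_and] at hF' hmax
  refine ⟨F', hF'.1, hF'.2, ?_⟩
  intro G hG h1 h2
  exact (eq_of_subset_of_card_le h2 (hmax G ⟨hG, h1⟩)).symm

section Local

variable (h2 : ∀ p ∈ 𝒜, ∀ q ∈ 𝒜, p.2 = q.2 → p = q)
  {F F' : Finset V} (hF : Closed 𝒜 F)

include h2

/-- If `y ∉ T` then `F' ∪ (T \ H)` is closed, where `H` is the closure of `F' ∪ y`. -/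
lemma closed_diff (hF' : Closed 𝒜 F') {T : Finset V} (hT : Closed 𝒜 T) (hFT : F' ⊆ T) {y : V}
    (hy : y ∉ T) : Closed 𝒜 (F' ∪ (T \ cl 𝒜 (insert y F'))) := by
  intro p hp hsub
  by_contra hcon
  have h3 : p.2 ∈ T := hT p hp (hsub.trans (union_subset hFT sdiff_subset))
  have h4 : p.2 ∉ F' := fun h => hcon (mem_union_left _ h)
  have h5 : p.2 ∈ cl 𝒜 (insert y F') := by
    by_contra h
    exact hcon (mem_union_right _ (mem_sdiff.2 ⟨h3, h⟩))
  have h6 : p.2 ∉ insert y F' := by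
    rw [mem_insert]
    rintro (h | h)
    · exact hy (h ▸ h3)
    · exact h4 h
  have h7 := stem_subset h2 hp h5 h6
  refine h4 (hF' p hp ?_)
  intro x hx
  rcases mem_union.1 (hsub hx) with h | h
  · exact h
  · exact absurd (h7 hx) (mem_sdiff.1 h).2

include hF

/-- Some element generates `F` over `F'`. -/
lemma exists_gen {v : V} (hv : v ∈ F) (hFv : ¬ Closed 𝒜 (F.erase v)) (hm : IsMax 𝒜 v F F') :
    ∃ u, u ∉ F' ∧ ¬ Closed 𝒜 (insert u F') ∧ cl 𝒜 (insert u F') = F := by
  classical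
  obtain ⟨hF', hsub, hmax⟩ := hm
  have hsubF : F' ⊆ F := hsub.trans (erase_subset _ _)
  have hvF' : v ∉ F' := fun h => notMem_erase v F (hsub h)
  have hclF : ∀ u ∈ F, cl 𝒜 (insert u F') ⊆ F := fun u hu =>
    cl_subset hF (insert_subset hu hsubF)
  -- every closed set between contains `v`
  have hvmem : ∀ G : Finset V, Closed 𝒜 G → G ⊆ F → F' ⊆ G → G ≠ F' → v ∈ G := by
    intro G hG hGF hFG hne
    by_contra h
    exact hne (hmax G hG (fun x hx => mem_erase.2 ⟨fun h' => h (h' ▸ hx), hGF hx⟩) hFG)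
  set S : Finset V := F \ F' with hS
  have hne : S.Nonempty := ⟨v, mem_sdiff.2 ⟨hv, hvF'⟩⟩
  obtain ⟨u, huS, humax⟩ := S.exists_max_image (fun u => (cl 𝒜 (insert u F')).card) hne
  obtain ⟨huF, huF'⟩ := mem_sdiff.1 huS
  have hG : cl 𝒜 (insert u F') = F := by
    by_contra hcon
    obtain ⟨y, hyF, hyG⟩ : ∃ y ∈ F, y ∉ cl 𝒜 (insert u F') := by
      by_contra h
      push Not at h
      exact hcon (subset_antisymm (hclF u huF) h)
    have hF'G : F' ⊆ cl 𝒜 (insert u F') := (subset_insert _ _).trans (subset_cl _)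
    have huG : u ∈ cl 𝒜 (insert u F') := subset_cl _ (mem_insert_self _ _)
    have hvG : v ∈ cl 𝒜 (insert u F') :=
      hvmem _ (closed_cl _) (hclF u huF) hF'G (fun h => huF' (h ▸ huG))
    have hyF' : y ∉ F' := fun h => hyG (hF'G h)
    set H := cl 𝒜 (insert y F') with hH
    have hyH : y ∈ H := subset_cl _ (mem_insert_self _ _)
    have hF'H : F' ⊆ H := (subset_insert _ _).trans (subset_cl _)
    have huH : u ∈ H := by
      by_contra huH
      have hc := closed_diff h2 hF' (closed_cl (𝒜 := 𝒜) (insert y F')) hF'H huH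
      have hvm := hvmem _ hc
        (union_subset hsubF (sdiff_subset.trans (hclF y hyF))) subset_union_left
        (fun h => hyF' (h ▸ mem_union_right _ (mem_sdiff.2 ⟨hyH, hyG⟩)))
      rcases mem_union.1 hvm with h | h
      · exact hvF' h
      · exact (mem_sdiff.1 h).2 hvG
    have hGH : cl 𝒜 (insert u F') ⊂ H := by
      refine (ssubset_iff_of_subset (cl_subset (closed_cl _) (insert_subset huH hF'H))).2 ?_
      exact ⟨y, hyH, hyG⟩
    have h4 : (cl 𝒜 (insert y F')).card ≤ (cl 𝒜 (insert u F')).card :=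
      humax y (mem_sdiff.2 ⟨hyF, hyF'⟩)
    rw [← hH] at h4
    have h3 := card_lt_card hGH
    omega
  refine ⟨u, huF', ?_, hG⟩
  intro hcl
  have h3 : F = insert u F' := by
    rw [← hG]
    exact subset_antisymm (cl_subset hcl subset_rfl) (subset_cl _)
  have h4 : v = u := by
    rw [h3, mem_insert] at hv
    exact hv.resolve_right hvF'
  apply hFv
  rw [h4, h3, erase_insert huF']
  exact hF'

/-- If `F'` is a maximal closed subset of `F \ v₁` and of `F \ v₂`, then every element of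
`F \ F'` generates `F` over `F'`. -/
lemma all_gen {v₁ v₂ : V} (hne : v₁ ≠ v₂)
    (hm₁ : IsMax 𝒜 v₁ F F') (hm₂ : IsMax 𝒜 v₂ F F') {y : V} (hy : y ∈ F) (hyF' : y ∉ F') :
    ¬ Closed 𝒜 (insert y F') ∧ cl 𝒜 (insert y F') = F := by
  classical
  obtain ⟨hF', hsub₁, hmax₁⟩ := hm₁
  obtain ⟨-, hsub₂, hmax₂⟩ := hm₂
  have hsubF : F' ⊆ F := hsub₁.trans (erase_subset _ _)
  have hv₁F' : v₁ ∉ F' := fun h => notMem_erase v₁ F (hsub₁ h)
  have hv₂F' : v₂ ∉ F' := fun h => notMem_erase v₂ F (hsub₂ h)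
  have hvmem₁ : ∀ G : Finset V, Closed 𝒜 G → G ⊆ F → F' ⊆ G → G ≠ F' → v₁ ∈ G := by
    intro G hG hGF hFG hne
    by_contra h
    exact hne (hmax₁ G hG (fun x hx => mem_erase.2 ⟨fun h' => h (h' ▸ hx), hGF hx⟩) hFG)
  have hvmem₂ : ∀ G : Finset V, Closed 𝒜 G → G ⊆ F → F' ⊆ G → G ≠ F' → v₂ ∈ G := by
    intro G hG hGF hFG hne
    by_contra h
    exact hne (hmax₂ G hG (fun x hx => mem_erase.2 ⟨fun h' => h (h' ▸ hx), hGF hx⟩) hFG)
  -- no single element can be added
  have hnot : ∀ u ∈ F \ F', ¬ Closed 𝒜 (insert u F') := by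
    intro u hu hcl
    obtain ⟨huF, huF'⟩ := mem_sdiff.1 hu
    have h3 : insert u F' ≠ F' := fun h => huF' (h ▸ mem_insert_self _ _)
    have h4 := hvmem₁ _ hcl (insert_subset huF hsubF) (subset_insert _ _) h3
    have h5 := hvmem₂ _ hcl (insert_subset huF hsubF) (subset_insert _ _) h3
    have h6 := (mem_insert.1 h4).resolve_right hv₁F'
    have h7 := (mem_insert.1 h5).resolve_right hv₂F'
    exact hne (h6.trans h7.symm)
  refine ⟨hnot y (mem_sdiff.2 ⟨hy, hyF'⟩), ?_⟩
  -- the rooted sets witnessing this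
  have hw : ∀ u ∈ F \ F', ∃ p ∈ 𝒜, p.1 ⊆ insert u F' ∧ u ∈ p.1 ∧ p.2 ∈ F \ F' := by
    intro u hu
    obtain ⟨huF, huF'⟩ := mem_sdiff.1 hu
    have := hnot u hu
    unfold Closed at this
    push Not at this
    obtain ⟨p, hp, hps, hpr⟩ := this
    refine ⟨p, hp, hps, ?_, ?_⟩
    · by_contra h
      apply hpr
      refine mem_insert_of_mem (hF' p hp ?_)
      intro x hx
      rcases mem_insert.1 (hps hx) with h' | h'
      · exact absurd (h' ▸ hx) h
      · exact h'
    · refine mem_sdiff.2 ⟨hF p hp (hps.trans (insert_subset huF hsubF)), fun h => ?_⟩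
      exact hpr (mem_insert_of_mem h)
  choose! w hwA hws hwu hwF using hw
  -- `u ↦ (w u).2` is a permutation of `F \ F'`
  have hinj : Set.InjOn (fun u => (w u).2) (F \ F' : Finset V) := by
    intro a ha b hb hab
    have h3 := h2 _ (hwA a ha) _ (hwA b hb) hab
    have h4 := hwu a ha
    rw [h3] at h4
    rcases mem_insert.1 (hws b hb h4) with h | h
    · exact h
    · exact absurd h (mem_sdiff.1 (mem_coe.1 ha)).2
  set H := cl 𝒜 (insert y F') with hH
  have hHF : H ⊆ F := cl_subset hF (insert_subset hy hsubF)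
  have hyH : y ∈ H := subset_cl _ (mem_insert_self _ _)
  have hF'H : F' ⊆ H := (subset_insert _ _).trans (subset_cl _)
  have hHcl : Closed 𝒜 H := closed_cl _
  have hHne : H ≠ F' := fun h => hyF' (h ▸ hyH)
  have hv₁H : v₁ ∈ H := hvmem₁ H hHcl hHF hF'H hHne
  -- the map sends `H \ F'` onto itself
  have hmaps : ∀ a ∈ H \ F', (w a).2 ∈ H \ F' := by
    intro a ha
    obtain ⟨haH, haF'⟩ := mem_sdiff.1 ha
    have ha' : a ∈ F \ F' := mem_sdiff.2 ⟨hHF haH, haF'⟩
    refine mem_sdiff.2 ⟨hHcl _ (hwA a ha') ((hws a ha').trans (insert_subset haH hF'H)), ?_⟩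
    exact (mem_sdiff.1 (hwF a ha')).2
  have hsurj : ∀ b ∈ H \ F', ∃ a ∈ H \ F', (w a).2 = b := by
    have h3 : (H \ F').image (fun u => (w u).2) = H \ F' := by
      apply eq_of_subset_of_card_le
      · intro b hb
        obtain ⟨a, ha, rfl⟩ := mem_image.1 hb
        exact hmaps a ha
      · rw [card_image_of_injOn]
        exact hinj.mono (by
          intro a ha
          have ha' := mem_coe.1 ha
          exact mem_coe.2 (sdiff_subset_sdiff hHF subset_rfl ha'))
    intro b hb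
    rw [← h3] at hb
    exact mem_image.1 hb
  -- the stems of the elements of `H \ F'` lie in `H`
  have hcl2 : Closed 𝒜 (F' ∪ (F \ H)) := by
    intro p hp hs
    by_contra hcon
    have h3 : p.2 ∈ F := hF p hp (hs.trans (union_subset hsubF sdiff_subset))
    have h4 : p.2 ∉ F' := fun h => hcon (mem_union_left _ h)
    have h5 : p.2 ∈ H := by
      by_contra h
      exact hcon (mem_union_right _ (mem_sdiff.2 ⟨h3, h⟩))
    obtain ⟨a, ha, hap⟩ := hsurj p.2 (mem_sdiff.2 ⟨h5, h4⟩)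
    obtain ⟨haH, haF'⟩ := mem_sdiff.1 ha
    have ha' : a ∈ F \ F' := mem_sdiff.2 ⟨hHF haH, haF'⟩
    have h6 := h2 _ (hwA a ha') _ hp hap
    have h7 := hwu a ha'
    rw [h6] at h7
    rcases mem_union.1 (hs h7) with h | h
    · exact haF' h
    · exact (mem_sdiff.1 h).2 haH
  by_contra hcon
  obtain ⟨t, htF, htH⟩ : ∃ t ∈ F, t ∉ H := by
    by_contra h
    push Not at h
    exact hcon (subset_antisymm hHF h)
  have hvm := hvmem₁ _ hcl2 (union_subset hsubF sdiff_subset) subset_union_left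
    (fun h => htH (hF'H (h ▸ mem_union_right _ (mem_sdiff.2 ⟨htF, htH⟩))))
  rcases mem_union.1 hvm with h | h
  · exact hv₁F' h
  · exact (mem_sdiff.1 h).2 hv₁H

end Local

/-! ### Counting -/

/-- Pairs `(v, F)`, `v ∈ F`, `F` closed, `F \ v` not closed. -/
def pairsA (𝒜 : Finset (Finset V × V)) : Finset (V × Finset V) :=
  univ.filter fun q => q.1 ∈ q.2 ∧ Closed 𝒜 q.2 ∧ ¬ Closed 𝒜 (q.2.erase q.1)

/-- Pairs `(u, F)`, `u ∉ F`, `F` closed, `F ∪ u` not closed. -/
def pairsB (𝒜 : Finset (Finset V × V)) : Finset (V × Finset V) :=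
  univ.filter fun q => q.1 ∉ q.2 ∧ Closed 𝒜 q.2 ∧ ¬ Closed 𝒜 (insert q.1 q.2)

lemma pairsA_le (h2 : ∀ p ∈ 𝒜, ∀ q ∈ 𝒜, p.2 = q.2 → p = q) (h0 : Closed 𝒜 (∅ : Finset V)) :
    (pairsA 𝒜).card ≤ (pairsB 𝒜).card := by
  classical
  choose m hm using exists_max (𝒜 := 𝒜) h0
  have e1 := card_eq_sum_card_fiberwise (s := pairsA 𝒜)
    (t := (univ : Finset (Finset V × Finset V))) (f := fun q => (m q.1 q.2, q.2))
    (fun _ _ => mem_coe.2 (mem_univ _))
  have e2 := card_eq_sum_card_fiberwise (s := pairsB 𝒜)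
    (t := (univ : Finset (Finset V × Finset V))) (f := fun q => (q.2, cl 𝒜 (insert q.1 q.2)))
    (fun _ _ => mem_coe.2 (mem_univ _))
  rw [e1, e2]
  apply sum_le_sum
  rintro ⟨F', F⟩ -
  set X := (pairsA 𝒜).filter fun q => (m q.1 q.2, q.2) = (F', F) with hX
  set Y := (pairsB 𝒜).filter fun q => (q.2, cl 𝒜 (insert q.1 q.2)) = (F', F) with hY
  have hXm : ∀ q ∈ X, q.2 = F ∧ m q.1 F = F' ∧ q.1 ∈ F ∧ Closed 𝒜 F ∧ ¬ Closed 𝒜 (F.erase q.1) := by
    intro q hq
    simp only [hX, pairsA, mem_filter, mem_univ, true_and, Prod.mk.injEq] at hq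
    obtain ⟨⟨a, b, c⟩, d, e⟩ := hq
    subst e
    exact ⟨rfl, d, a, b, c⟩
  have hYm : ∀ u, u ∉ F' → Closed 𝒜 F' → ¬ Closed 𝒜 (insert u F') → cl 𝒜 (insert u F') = F →
      (u, F') ∈ Y := by
    intro u h3 h4 h5 h6
    simp only [hY, pairsB, mem_filter, mem_univ, true_and, Prod.mk.injEq]
    exact ⟨⟨h3, h4, h5⟩, h6⟩
  rcases Nat.lt_or_ge 1 X.card with hlt | hle
  · obtain ⟨q₁, hq₁, q₂, hq₂, hne⟩ := one_lt_card.1 hlt
    obtain ⟨a1, b1, c1, d1, -⟩ := hXm q₁ hq₁
    obtain ⟨a2, b2, -, -, -⟩ := hXm q₂ hq₂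
    have hne' : q₁.1 ≠ q₂.1 := fun h => hne (Prod.ext h (a1.trans a2.symm))
    have hm₁ := hm q₁.1 F
    have hm₂ := hm q₂.1 F
    rw [b1] at hm₁
    rw [b2] at hm₂
    apply card_le_card_of_injOn (fun q => (q.1, F'))
    · intro q hq
      obtain ⟨a, b, c, d, e⟩ := hXm q hq
      have hq' : q.1 ∉ F' := by
        have := (hm q.1 F).2.1
        rw [b] at this
        exact fun h => notMem_erase _ _ (this h)
      obtain ⟨h3, h4⟩ := all_gen h2 d hne' hm₁ hm₂ c hq'
      exact hYm _ hq' hm₁.1 h3 h4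
    · intro q hq q' hq' h
      obtain ⟨a, -⟩ := hXm q hq
      obtain ⟨a', -⟩ := hXm q' hq'
      exact Prod.ext (Prod.mk.inj h).1 (a.trans a'.symm)
  · rcases X.eq_empty_or_nonempty with h | ⟨q, hq⟩
    · rw [h]
      simp
    · obtain ⟨a, b, c, d, e⟩ := hXm q hq
      have hm' := hm q.1 F
      rw [b] at hm'
      obtain ⟨u, h3, h4, h5⟩ := exists_gen h2 d c e hm'
      exact hle.trans (card_pos.2 ⟨_, hYm u h3 hm'.1 h4 h5⟩)

/-- Double counting. -/
lemma count (𝒜 : Finset (Finset V × V)) :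
    ∑ F ∈ univ.filter (Closed 𝒜), F.card + (pairsB 𝒜).card =
      ∑ F ∈ univ.filter (Closed 𝒜), Fᶜ.card + (pairsA 𝒜).card := by
  classical
  have e1 : ∑ F ∈ univ.filter (Closed 𝒜), F.card
      = ((univ : Finset (V × Finset V)).filter fun q => q.1 ∈ q.2 ∧ Closed 𝒜 q.2).card := by
    rw [card_filter, ← univ_product_univ, sum_product_right, sum_filter]
    apply sum_congr rfl
    intro F _
    by_cases h : Closed 𝒜 F
    · simp [h]
    · simp [h]
  have e2 : ∑ F ∈ univ.filter (Closed 𝒜), Fᶜ.card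
      = ((univ : Finset (V × Finset V)).filter fun q => q.1 ∉ q.2 ∧ Closed 𝒜 q.2).card := by
    rw [card_filter, ← univ_product_univ, sum_product_right, sum_filter]
    apply sum_congr rfl
    intro F _
    by_cases h : Closed 𝒜 F
    · simp only [h, and_true, if_true]
      rw [← card_filter]
      congr 1
      ext x
      simp
    · simp [h]
  have s1 : ((univ : Finset (V × Finset V)).filter fun q => q.1 ∈ q.2 ∧ Closed 𝒜 q.2).card
      = ((univ : Finset (V × Finset V)).filter fun q => q.1 ∈ q.2 ∧ Closed 𝒜 q.2 ∧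
          Closed 𝒜 (q.2.erase q.1)).card + (pairsA 𝒜).card := by
    rw [← card_filter_add_card_filter_not (s := (univ : Finset (V × Finset V)).filter
      fun q => q.1 ∈ q.2 ∧ Closed 𝒜 q.2) (fun q => Closed 𝒜 (q.2.erase q.1)),
      filter_filter, filter_filter]
    congr 2
    · ext q
      simp [and_assoc]
    · ext q
      simp [pairsA, and_assoc]
  have s2 : ((univ : Finset (V × Finset V)).filter fun q => q.1 ∉ q.2 ∧ Closed 𝒜 q.2).card
      = ((univ : Finset (V × Finset V)).filter fun q => q.1 ∉ q.2 ∧ Closed 𝒜 q.2 ∧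
          Closed 𝒜 (insert q.1 q.2)).card + (pairsB 𝒜).card := by
    rw [← card_filter_add_card_filter_not (s := (univ : Finset (V × Finset V)).filter
      fun q => q.1 ∉ q.2 ∧ Closed 𝒜 q.2) (fun q => Closed 𝒜 (insert q.1 q.2)),
      filter_filter, filter_filter]
    congr 2
    · ext q
      simp [and_assoc]
    · ext q
      simp [pairsB, and_assoc]
  have b : ((univ : Finset (V × Finset V)).filter fun q => q.1 ∈ q.2 ∧ Closed 𝒜 q.2 ∧
          Closed 𝒜 (q.2.erase q.1)).card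
      = ((univ : Finset (V × Finset V)).filter fun q => q.1 ∉ q.2 ∧ Closed 𝒜 q.2 ∧
          Closed 𝒜 (insert q.1 q.2)).card := by
    refine card_bij' (fun q _ => (q.1, q.2.erase q.1)) (fun q _ => (q.1, insert q.1 q.2))
      ?_ ?_ ?_ ?_
    · rintro ⟨v, F⟩ hq
      simp only [mem_filter, mem_univ, true_and] at hq ⊢
      exact ⟨notMem_erase _ _, hq.2.2, by rw [insert_erase hq.1]; exact hq.2.1⟩
    · rintro ⟨v, F⟩ hq
      simp only [mem_filter, mem_univ, true_and] at hq ⊢
      exact ⟨mem_insert_self _ _, hq.2.2, by rw [erase_insert hq.1]; exact hq.2.1⟩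
    · rintro ⟨v, F⟩ hq
      simp only [mem_filter, mem_univ, true_and] at hq ⊢
      rw [insert_erase hq.1]
    · rintro ⟨v, F⟩ hq
      simp only [mem_filter, mem_univ, true_and] at hq ⊢
      rw [erase_insert hq.1]
  rw [e1, e2, s1, s2, b]
  omega

/-- Let `𝒜` be a family of rooted sets `(A, r)` on a finite set `V` in which every element is the
root of at most one member, and `C` the family of the sets closed under `𝒜`.  If `∅ ∈ C`, then `C`
is average-rare, and if `V` is not empty then some element of `V` is rare. -/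
theorem result {V : Type*} [Fintype V] [DecidableEq V] (𝒜 : Finset (Finset V × V))
    (_hroot : ∀ p ∈ 𝒜, p.2 ∉ p.1) (hone : ∀ p ∈ 𝒜, ∀ q ∈ 𝒜, p.2 = q.2 → p = q)
    (C : Finset (Finset V)) (hC : ∀ F, F ∈ C ↔ ∀ p ∈ 𝒜, p.1 ⊆ F → p.2 ∈ F) (hempty : ∅ ∈ C) :
    2 * ∑ F ∈ C, F.card ≤ C.card * Fintype.card V ∧
      (Nonempty V → ∃ u : V, 2 * (C.filter fun F => u ∈ F).card ≤ C.card) := by
  classical
  have hCe : C = univ.filter (Closed 𝒜) := by
    ext F
    rw [hC]
    simp [Closed]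
  have h0 : Closed 𝒜 (∅ : Finset V) := (hC ∅).1 hempty
  have h3 := count 𝒜
  have h4 := pairsA_le hone h0
  have h5 : ∑ F ∈ C, (F.card + Fᶜ.card) = C.card * Fintype.card V := by
    rw [sum_congr rfl fun F _ => card_add_card_compl F, sum_const, smul_eq_mul]
  rw [sum_add_distrib] at h5
  rw [← hCe] at h3
  have h6 : 2 * ∑ F ∈ C, F.card ≤ C.card * Fintype.card V := by omega
  refine ⟨h6, fun hne => ?_⟩
  by_contra hcon
  push Not at hcon
  have h7 : ∑ F ∈ C, F.card = ∑ u : V, (C.filter fun F => u ∈ F).card := by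
    simp only [card_filter]
    rw [sum_comm]
    apply sum_congr rfl
    intro F _
    simp
  have h8 : ∑ u : V, C.card < ∑ u : V, 2 * (C.filter fun F => u ∈ F).card :=
    sum_lt_sum_of_nonempty univ_nonempty fun u _ => hcon u
  rw [sum_const, smul_eq_mul, card_univ, ← mul_sum, ← h7] at h8
  rw [mul_comm] at h6
  rw [mul_comm] at h8
  omega

end Pool.Agent.Results.MP_acd7a5_co.AverageRare
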